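import Pool.Agent.H970.RG.Defs

/-!
# Project RG (helper970): the difference of the bilinear expressions with two cut-offs
-/

set_option autoImplicit false
set_option linter.unusedSectionVars false

noncomputable section

namespace Pool.Agent.H860.RG

open MvPolynomial Pool.Agent.H5R2.ON Pool.Agent.H717R2.ON3 Pool.Agent.H983R2.ONJ
open Pool.Agent.Y13.QM Pool.Agent.H970.RG

section alg

variable {V : Type}

theorem sup_mono {A A' : Set V} {F : Alg V} (h : Sup A F) (hA : A ⊆ A') : Sup A' F := by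
  have h1 : MvPolynomial.supported ℝ {v : V × Fin 3 | v.1 ∈ A} ≤
      MvPolynomial.supported ℝ {v : V × Fin 3 | v.1 ∈ A'} :=
    MvPolynomial.supported_mono fun v hv => hA hv
  exact h1 h

theorem sup_mul {A : Set V} {F H : Alg V} (h : Sup A F) (h' : Sup A H) : Sup A (F * H) :=
  Subalgebra.mul_mem _ h h'

theorem sup_sub {A : Set V} {F H : Alg V} (h : Sup A F) (h' : Sup A H) : Sup A (F - H) :=
  Subalgebra.sub_mem _ h h'

theorem sup_loc [DecidableEq V] {A : Set V} {F : Alg V} (h : Sup A F) : Loc A F := by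
  intro x hx g
  have h1 : F ∈ Algebra.adjoin ℝ (X '' {v : V × Fin 3 | v.1 ∈ A} : Set (Alg V)) := h
  have h2 : Set.EqOn (D x g) (0 : Derivation ℝ (Alg V) (Alg V))
      (X '' {v : V × Fin 3 | v.1 ∈ A}) := by
    rintro _ ⟨v, hv, rfl⟩
    rw [D_X, if_neg (fun e : v.1 = x => hx (e ▸ hv))]
    rfl
  exact Derivation.eqOn_adjoin h2 h1

theorem nn_sq_mul {F H : Alg V} (h : NN H) : NN (F ^ 2 * H) := by
  intro σ hσ
  rw [map_mul, map_pow]
  exact mul_nonneg (sq_nonneg _) (h σ hσ)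

variable [Fintype V] [DecidableEq V]

/-- the product kernel -/
theorem QQ_prod (J : V → Fin 3 → Alg V) (u v : V → ℝ) (c : Fin 3) :
    QQ J (fun x z => u x * v z) c = JS J u (c + 1) * JS J v (c + 2) := by
  unfold QQ JS
  rw [Finset.sum_mul_sum]
  refine Finset.sum_congr rfl fun x _ => Finset.sum_congr rfl fun z _ => ?_
  rw [smul_mul_smul_comm]

theorem QQ_sub (J : V → Fin 3 → Alg V) (k k' : V → V → ℝ) (c : Fin 3) :
    QQ J (fun x z => k x z - k' x z) c = QQ J k c - QQ J k' c := by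
  unfold QQ
  rw [← Finset.sum_sub_distrib]
  refine Finset.sum_congr rfl fun x _ => ?_
  rw [← Finset.sum_sub_distrib]
  refine Finset.sum_congr rfl fun z _ => ?_
  rw [sub_smul]

theorem QQ_sum {α : Type} (J : V → Fin 3 → Alg V) (I : Finset α) (k : α → V → V → ℝ) (c : Fin 3) :
    QQ J (fun x z => ∑ i ∈ I, k i x z) c = ∑ i ∈ I, QQ J (k i) c := by
  unfold QQ
  simp only [Finset.sum_smul]
  exact (Finset.sum_congr rfl fun x _ => Finset.sum_comm).trans Finset.sum_comm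

theorem QQ_zero (J : V → Fin 3 → Alg V) (c : Fin 3) : QQ J (fun _ _ => 0) c = 0 := by
  unfold QQ
  simp

end alg

section torus

variable {L : ℕ} [NeZero L]

theorem JS_sup {J : Tor L → Fin 3 → Alg (Tor L)} {ρ r : ℝ}
    (hJ : ∀ y g, Sup {x | tnorm (x - y) ≤ ρ} (J y g)) {p : Tor L} {f : Tor L → ℝ}
    (hf : ∀ x, f x ≠ 0 → tnorm (x - p) ≤ r) (g : Fin 3) :
    Sup {x | tnorm (x - p) ≤ r + ρ} (JS J f g) := by
  unfold JS
  refine Subalgebra.sum_mem _ fun y _ => ?_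
  by_cases hy : f y = 0
  · rw [hy, zero_smul]
    exact Subalgebra.zero_mem _
  · refine Subalgebra.smul_mem _ (sup_mono (hJ y g) fun x hx => ?_) _
    have h1 := tnorm_add_le (x - y) (y - p)
    rw [sub_add_sub_cancel] at h1
    have h2 : tnorm (x - y) ≤ ρ := hx
    have h3 := hf y hy
    show tnorm (x - p) ≤ r + ρ
    linarith

/-- the term of a pair -/
def TT (J : Tor L → Fin 3 → Alg (Tor L)) (f : Tor L → ℝ) (r : ℝ) (P : Tor L × Tor L)
    (c : Fin 3) : Alg (Tor L) :=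
  JS J (th r P.1) (c + 1) * JS J (fun x => (f x - f P.1) * th r P.2 x) (c + 2) -
    JS J (fun x => (f x - f P.1) * th r P.1 x) (c + 1) * JS J (th r P.2) (c + 2)

theorem TT_eq (J : Tor L → Fin 3 → Alg (Tor L)) (f : Tor L → ℝ) (r : ℝ) (P : Tor L × Tor L)
    (c : Fin 3) : TT J f r P c = QQ J (fun x z => (f z - f x) * (th r P.1 x * th r P.2 z)) c := by
  unfold TT
  rw [← QQ_prod, ← QQ_prod, ← QQ_sub]
  congr 1
  funext x z
  ring

theorem th_supp {r : ℝ} (hr : 0 < r) (p x : Tor L) (h : th r p x ≠ 0) : tnorm (x - p) ≤ r := by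
  apply Aux493C.tau_supp r hr p x
  intro h0
  apply h
  unfold th
  rw [h0, zero_div]

theorem psi_sub (r : ℝ) (hr : 0 < r) (x z : Tor L) : psi 16 r x z - psi 4 r x z =
    ∑ P ∈ (Finset.univ.filter fun P : Tor L × Tor L =>
      4 * r < tnorm (P.1 - P.2) ∧ tnorm (P.1 - P.2) ≤ 16 * r), th r P.1 x * th r P.2 z := by
  have e : ∑ P ∈ (Finset.univ.filter fun P : Tor L × Tor L =>
      4 * r < tnorm (P.1 - P.2) ∧ tnorm (P.1 - P.2) ≤ 16 * r), th r P.1 x * th r P.2 z =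
      ∑ p : Tor L, ∑ q : Tor L, if 4 * r < tnorm (p - q) ∧ tnorm (p - q) ≤ 16 * r then
        th r p x * th r q z else 0 := by
    rw [Finset.sum_filter]
    exact Fintype.sum_prod_type _
  rw [e]
  unfold psi
  rw [← Finset.sum_sub_distrib]
  refine Finset.sum_congr rfl fun p _ => ?_
  rw [← Finset.sum_sub_distrib]
  refine Finset.sum_congr rfl fun q _ => ?_
  by_cases h1 : tnorm (p - q) ≤ 4 * r
  · have h2 : tnorm (p - q) ≤ 16 * r := by linarith
    rw [if_pos h1, if_pos h2, sub_self, if_neg (fun h => absurd h.1 (not_lt.2 h1))]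
  · rw [if_neg h1, sub_zero]
    by_cases h2 : tnorm (p - q) ≤ 16 * r
    · rw [if_pos h2, if_pos ⟨not_le.1 h1, h2⟩]
    · rw [if_neg h2, if_neg (fun h => h2 h.2)]

/-- the active pairs -/
def PP (r R' : ℝ) (a : Tor L) : Finset (Tor L × Tor L) :=
  Finset.univ.filter fun P : Tor L × Tor L =>
    (4 * r < tnorm (P.1 - P.2) ∧ tnorm (P.1 - P.2) ≤ 16 * r) ∧
      (tnorm (P.1 - a) ≤ R' + 17 * r ∧ tnorm (P.2 - a) ≤ R' + 17 * r)

theorem diff_eq (J : Tor L → Fin 3 → Alg (Tor L)) (f : Tor L → ℝ) {r R' : ℝ} (hr : 0 < r)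
    (a : Tor L) (hf : ∀ x, f x ≠ 0 → tnorm (x - a) ≤ R') (c : Fin 3) :
    QQ J (kap f (psi 16 r)) c - QQ J (kap f (psi 4 r)) c = ∑ P ∈ PP r R' a, TT J f r P c := by
  rw [← QQ_sub]
  have e1 : (fun x z => kap f (psi 16 r) x z - kap f (psi 4 r) x z) = fun x z =>
      ∑ P ∈ (Finset.univ.filter fun P : Tor L × Tor L =>
      4 * r < tnorm (P.1 - P.2) ∧ tnorm (P.1 - P.2) ≤ 16 * r),
        (f z - f x) * (th r P.1 x * th r P.2 z) := by
    funext x z
    unfold kap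
    rw [← mul_sub, psi_sub r hr, Finset.mul_sum]
  rw [e1, QQ_sum]
  have e2 : PP r R' a = (Finset.univ.filter fun P : Tor L × Tor L =>
      4 * r < tnorm (P.1 - P.2) ∧ tnorm (P.1 - P.2) ≤ 16 * r).filter fun P =>
      (tnorm (P.1 - a) ≤ R' + 17 * r ∧ tnorm (P.2 - a) ≤ R' + 17 * r) := by
    rw [Finset.filter_filter]
    rfl
  rw [e2]
  symm
  rw [Finset.sum_filter]
  refine Finset.sum_congr rfl fun P hP => ?_
  obtain ⟨_, h4, h16⟩ := Finset.mem_filter.1 hP
  rw [TT_eq]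
  split_ifs with h
  · rfl
  · have e3 : (fun x z => (f z - f x) * (th r P.1 x * th r P.2 z)) = fun _ _ => 0 := by
      funext x z
      by_contra hne
      apply h
      have h1 : th r P.1 x ≠ 0 := fun h0 => hne (by rw [h0]; ring)
      have h2 : th r P.2 z ≠ 0 := fun h0 => hne (by rw [h0]; ring)
      have h3 := th_supp hr _ _ h1
      have h5 := th_supp hr _ _ h2
      have h6 : f z ≠ 0 ∨ f x ≠ 0 := by
        by_contra hh
        rw [not_or, not_not, not_not] at hh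
        exact hne (by rw [hh.1, hh.2]; ring)
      rcases h6 with h6 | h6
      · have h7 := hf z h6
        have h8 := tnorm_add_le (P.2 - z) (z - a)
        rw [sub_add_sub_cancel, tnorm_sub_comm P.2 z] at h8
        have h9 := tnorm_add_le (P.1 - P.2) (P.2 - a)
        rw [sub_add_sub_cancel] at h9
        constructor <;> linarith
      · have h7 := hf x h6
        have h8 := tnorm_add_le (P.1 - x) (x - a)
        rw [sub_add_sub_cancel, tnorm_sub_comm P.1 x] at h8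
        have h9 := tnorm_add_le (P.2 - P.1) (P.1 - a)
        rw [sub_add_sub_cancel, tnorm_sub_comm P.2 P.1] at h9
        constructor <;> linarith
    rw [e3, QQ_zero]

/-- Lipschitz bound of a product -/
theorem lip2 (a : Tor L) (b h : Tor L → ℝ) (B B1 M r lam : ℝ) (hB : ∀ x, |b x| ≤ B)
    (hlam : 0 ≤ lam) (hB1' : 0 ≤ B1) (hM : 0 ≤ M)
    (hB1 : ∀ x y, |b x - b y| ≤ B1 * tnorm (x - y)) (hs : ∀ x, b x ≠ 0 → tnorm (x - a) ≤ r)
    (hh : ∀ x, tnorm (x - a) ≤ r → |h x| ≤ M) (hh1 : ∀ x y, |h x - h y| ≤ lam * tnorm (x - y))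
    (x y : Tor L) :
    |h x * b x - h y * b y| ≤ (B1 * M + B * lam) * tnorm (x - y) := by
  have hB' := (abs_nonneg _).trans (hB a)
  have hxy := tnorm_nonneg (x - y)
  by_cases hx : b x = 0
  · by_cases hy : b y = 0
    · rw [hx, hy]
      simp only [mul_zero, sub_zero, abs_zero]
      positivity
    · have h3 : |h y| ≤ M := hh y (hs y hy)
      have h4 : h x * b x - h y * b y = (b x - b y) * h y + b x * (h x - h y) := by ring
      rw [h4]
      refine (abs_add_le _ _).trans ?_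
      rw [abs_mul, abs_mul]
      have h5 := mul_le_mul (hB1 x y) h3 (abs_nonneg _) (by positivity)
      have h6 := mul_le_mul (hB x) (hh1 x y) (abs_nonneg _) hB'
      linarith
  · have h3 : |h x| ≤ M := hh x (hs x hx)
    have h4 : h x * b x - h y * b y = (b x - b y) * h x + b y * (h x - h y) := by ring
    rw [h4]
    refine (abs_add_le _ _).trans ?_
    rw [abs_mul, abs_mul]
    have h5 := mul_le_mul (hB1 x y) h3 (abs_nonneg _) (by positivity)
    have h6 := mul_le_mul (hB y) (hh1 x y) (abs_nonneg _) hB'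
    linarith

section good

variable {ι : Type} [Fintype ι] {G : Gr (Tor L) ι} {β : ℝ} {Λ : Finset (Tor L)}
  {W : WFun G β Λ} {J : Tor L → Fin 3 → Alg (Tor L)}
  {b : Tor L → Fin 3 → Derivation ℝ (Alg (Tor L)) (Alg (Tor L))} {ρ l B : ℝ}

/-- the moment bound for one component -/
theorem mom1 (hG : Good W J b ρ l B) {r : ℝ} (hlr : l ≤ r) {a : Tor L}
    (ha : ∀ x, tnorm (x - a) ≤ 2 * r → x ∈ Λ) {s : ℝ} {f : Tor L → ℝ} (hs : 0 ≤ s)
    (hf : ∀ x, f x ≠ 0 → tnorm (x - a) ≤ r) (hl : ∀ x y, |f x - f y| ≤ s / r * tnorm (x - y))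
    {H : Alg (Tor L)} (hH : Loc {x | 2 * r < tnorm (x - a)} H) (hN : NN H) (i : Fin 3) :
    W.E (JS J f i ^ 2 * H) ≤ s ^ 2 * B * W.E H := by
  refine le_trans ?_ (hG.mom r hlr a ha s f hs hf hl H hH hN)
  exact Finset.single_le_sum (f := fun g => W.E (JS J f g ^ 2 * H))
    (fun g _ => W.pos _ (nn_sq_mul hN)) (Finset.mem_univ i)

/-- the factor at `p` is isolated -/
theorem ortho (hG : Good W J b ρ l B) {r : ℝ} {p : Tor L} {u : Tor L → ℝ}
    (hu : ∀ x, u x ≠ 0 → tnorm (x - p) ≤ r) (hΛ : ∀ x, tnorm (x - p) ≤ r + ρ → x ∈ Λ)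
    {F : Alg (Tor L)} (hF : Loc {x | r + ρ < tnorm (x - p)} F) (i : Fin 3) :
    W.E (JS J u i * F) = 0 := by
  unfold JS
  rw [Finset.sum_mul, map_sum]
  refine Finset.sum_eq_zero fun y _ => ?_
  rw [smul_mul_assoc, map_smul]
  by_cases hy : u y = 0
  · rw [hy, zero_smul]
  · have hy' := hu y hy
    have h1 : W.E (b y i F) = W.E (J y i * F) := by
      refine hG.ibp y (fun x hx => hΛ x ?_) i F
      have h1 := tnorm_add_le (x - y) (y - p)
      rw [sub_add_sub_cancel] at h1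
      linarith
    have h2 : b y i F = 0 := by
      refine hG.loc y i F _ hF (fun x hx => ?_)
      have h1 := tnorm_add_le (x - y) (y - p)
      rw [sub_add_sub_cancel] at h1
      have h3 : r + ρ < tnorm (x - p) := hx
      linarith
    rw [← h1, h2, map_zero, smul_zero]

/-- two separated factors -/
theorem mom2 (hG : Good W J b ρ l B) {r R' : ℝ} (hlr : l ≤ r) (hr : 1 ≤ r) (hρr : 2 * ρ ≤ r)
    (hB : 0 ≤ B) (hR : 20 * r ≤ R')
    {a : Tor L} (ha : ∀ x, tnorm (x - a) ≤ 2 * R' → x ∈ Λ)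
    {p q : Tor L} (hpq : 4 * r < tnorm (p - q)) (hp : tnorm (p - a) ≤ R' + 17 * r)
    (hq : tnorm (q - a) ≤ R' + 17 * r) {su sv : ℝ} {u v : Tor L → ℝ} (hsu : 0 ≤ su) (hsv : 0 ≤ sv)
    (hu : ∀ x, u x ≠ 0 → tnorm (x - p) ≤ r) (hv : ∀ x, v x ≠ 0 → tnorm (x - q) ≤ r)
    (hlu : ∀ x y, |u x - u y| ≤ su / r * tnorm (x - y))
    (hlv : ∀ x y, |v x - v y| ≤ sv / r * tnorm (x - y))
    {H : Alg (Tor L)} (hH : Loc {x | 2 * R' < tnorm (x - a)} H) (hN : NN H) (i j : Fin 3) :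
    W.E (JS J u i ^ 2 * (JS J v j ^ 2 * H)) ≤ su ^ 2 * B * (sv ^ 2 * B * W.E H) := by
  have hHx : ∀ z : Tor L, tnorm (z - a) ≤ R' + 17 * r → Loc {x | 2 * r < tnorm (x - z)} H := by
    intro z hz
    refine hH.mono fun x hx => ?_
    have h1 := tnorm_add_le (x - z) (z - a)
    rw [sub_add_sub_cancel] at h1
    have h2 : 2 * R' < tnorm (x - a) := hx
    show 2 * r < tnorm (x - z)
    linarith
  have hΛx : ∀ z : Tor L, tnorm (z - a) ≤ R' + 17 * r → ∀ x, tnorm (x - z) ≤ 2 * r → x ∈ Λ := by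
    intro z hz x hx
    refine ha x ?_
    have h1 := tnorm_add_le (x - z) (z - a)
    rw [sub_add_sub_cancel] at h1
    linarith
  have hv1 : Loc {x | 2 * r < tnorm (x - p)} (JS J v j) := by
    refine (sup_loc (JS_sup hG.sup hv j)).mono fun x hx => ?_
    have h1 : tnorm (x - q) ≤ r + ρ := hx
    have h2 := tnorm_add_le (p - x) (x - q)
    rw [sub_add_sub_cancel, tnorm_sub_comm p x] at h2
    show 2 * r < tnorm (x - p)
    linarith
  have hloc : Loc {x | 2 * r < tnorm (x - p)} (JS J v j ^ 2 * H) := by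
    rw [pow_two]
    exact (hv1.mul hv1).mul (hHx p hp)
  have h1 := mom1 hG hlr (hΛx p hp) hsu hu hlu hloc (nn_sq_mul hN) i
  have h2 := mom1 hG hlr (hΛx q hq) hsv hv hlv (hHx q hq) hN j
  exact h1.trans (mul_le_mul_of_nonneg_left h2 (mul_nonneg (sq_nonneg _) hB))

end good

theorem cst_pos (r : ℝ) (_hr : 0 < r) : 0 < cst L r := by
  have h3 : tau r (0 : Tor L) 0 ≤ cst L r :=
    Finset.single_le_sum (f := fun z => tau r (0 : Tor L) z)
      (fun z _ => Aux493C.tau_nonneg _ _ _) (Finset.mem_univ 0)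
  have h4 : tau r (0 : Tor L) 0 = 1 := by
    unfold tau
    rw [sub_zero, tnorm_zero]
    simp
  linarith

theorem th_lip {r : ℝ} (hr : 0 < r) (p x y : Tor L) :
    |th r p x - th r p y| ≤ 1 / cst L r / r * tnorm (x - y) := by
  have hk := cst_pos (L := L) r hr
  unfold th
  rw [← sub_div, abs_div, abs_of_pos hk, div_le_iff₀ hk]
  refine (Aux493C.tau_lip r hr p x y).trans (le_of_eq ?_)
  field_simp

theorem th_le {r : ℝ} (hr : 0 < r) (p x : Tor L) : |th r p x| ≤ 1 / cst L r := by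
  have hk := cst_pos (L := L) r hr
  unfold th
  rw [abs_div, abs_of_pos hk, abs_of_nonneg (Aux493C.tau_nonneg _ _ _)]
  gcongr
  exact Aux493C.tau_le_one r hr p x

theorem fth_lip {r R' s : ℝ} (hr : 0 < r) (hR : 0 < R') (hs : 0 ≤ s) {f : Tor L → ℝ}
    (hl : ∀ x y, |f x - f y| ≤ s / R' * tnorm (x - y)) {p q : Tor L}
    (hpq : tnorm (p - q) ≤ 16 * r) (x y : Tor L) :
    |(f x - f p) * th r q x - (f y - f p) * th r q y| ≤
      18 * s * r / (R' * cst L r) / r * tnorm (x - y) := by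
  have hk := cst_pos (L := L) r hr
  refine (lip2 q (th r q) (fun x => f x - f p) (1 / cst L r) (1 / cst L r / r)
    (s / R' * (17 * r)) r (s / R') (th_le hr q) (by positivity) (by positivity) (by positivity)
    (th_lip hr q) (fun x h => th_supp hr q x h) ?_ ?_ x y).trans (le_of_eq ?_)
  · intro x hx
    refine (hl x p).trans (mul_le_mul_of_nonneg_left ?_ (by positivity))
    have h1 := tnorm_add_le (x - q) (q - p)
    rw [sub_add_sub_cancel, tnorm_sub_comm q p] at h1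
    linarith
  · intro x y
    rw [sub_sub_sub_cancel_right]
    exact hl x y
  · field_simp
    ring

theorem fth_supp {r : ℝ} (hr : 0 < r) (f : Tor L → ℝ) (p q x : Tor L)
    (h : (f x - f p) * th r q x ≠ 0) : tnorm (x - q) ≤ r :=
  th_supp hr q x fun h0 => h (by rw [h0, mul_zero])

section good2

variable {ι : Type} [Fintype ι] {G : Gr (Tor L) ι} {β : ℝ} {Λ : Finset (Tor L)}
  {W : WFun G β Λ} {J : Tor L → Fin 3 → Alg (Tor L)}
  {b : Tor L → Fin 3 → Derivation ℝ (Alg (Tor L)) (Alg (Tor L))} {ρ l B : ℝ}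

theorem TT_mom (hG : Good W J b ρ l B) {r R' s : ℝ} (hlr : l ≤ r) (hr : 1 ≤ r)
    (hρr : 2 * ρ ≤ r) (hB : 0 ≤ B) (hR : 20 * r ≤ R') (hs : 0 ≤ s)
    {a : Tor L} (ha : ∀ x, tnorm (x - a) ≤ 2 * R' → x ∈ Λ) {f : Tor L → ℝ}
    (hl : ∀ x y, |f x - f y| ≤ s / R' * tnorm (x - y))
    {H : Alg (Tor L)} (hH : Loc {x | 2 * R' < tnorm (x - a)} H) (hN : NN H)
    {P : Tor L × Tor L} (hP : P ∈ PP r R' a) (c : Fin 3) :
    W.E (TT J f r P c ^ 2 * H) ≤
      4 * ((1 / cst L r) ^ 2 * B * ((18 * s * r / (R' * cst L r)) ^ 2 * B * W.E H)) := by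
  obtain ⟨_, ⟨h4, h16⟩, hp, hq⟩ := Finset.mem_filter.1 hP
  have hr0 : 0 < r := by linarith
  have hR0 : 0 < R' := by linarith
  have hk := cst_pos (L := L) r hr0
  have s1 : 0 ≤ 1 / cst L r := by positivity
  have s2 : 0 ≤ 18 * s * r / (R' * cst L r) := by positivity
  have m1 := mom2 hG hlr hr hρr hB hR ha h4 hp hq s1 s2 (fun x h => th_supp hr0 P.1 x h)
    (fun x h => fth_supp hr0 f P.1 P.2 x h) (th_lip hr0 P.1) (fth_lip hr0 hR0 hs hl h16) hH hN
    (c + 1) (c + 2)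
  have h0 : tnorm (P.1 - P.1) ≤ 16 * r := by
    rw [sub_self, tnorm_zero]
    positivity
  have m2 := mom2 hG hlr hr hρr hB hR ha h4 hp hq s2 s1
    (fun x h => fth_supp hr0 f P.1 P.1 x h) (fun x h => th_supp hr0 P.2 x h)
    (fth_lip hr0 hR0 hs hl h0) (th_lip hr0 P.2) hH hN (c + 1) (c + 2)
  have m3 : W.E (TT J f r P c ^ 2 * H) ≤
      W.E ((2 : ℝ) • (JS J (th r P.1) (c + 1) ^ 2 *
          (JS J (fun x => (f x - f P.1) * th r P.2 x) (c + 2) ^ 2 * H)) +
        (2 : ℝ) • (JS J (fun x => (f x - f P.1) * th r P.1 x) (c + 1) ^ 2 *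
          (JS J (th r P.2) (c + 2) ^ 2 * H))) := by
    refine W.mono fun σ hσ => ?_
    have hh := hN σ hσ
    unfold TT
    simp only [map_mul, map_pow, map_sub, map_add, smul_eval]
    generalize eval σ (JS J (th r P.1) (c + 1)) = x1
    generalize eval σ (JS J (fun x => (f x - f P.1) * th r P.2 x) (c + 2)) = x2
    generalize eval σ (JS J (fun x => (f x - f P.1) * th r P.1 x) (c + 1)) = x3
    generalize eval σ (JS J (th r P.2) (c + 2)) = x4
    nlinarith [mul_nonneg (sq_nonneg (x1 * x2 + x3 * x4)) hh]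
  rw [map_add, map_smul, map_smul, smul_eq_mul, smul_eq_mul] at m3
  calc W.E (TT J f r P c ^ 2 * H) ≤ _ := m3
    _ ≤ 2 * ((1 / cst L r) ^ 2 * B * ((18 * s * r / (R' * cst L r)) ^ 2 * B * W.E H)) +
        2 * ((18 * s * r / (R' * cst L r)) ^ 2 * B * ((1 / cst L r) ^ 2 * B * W.E H)) := by
      gcongr
    _ = _ := by ring

theorem TT_cross (hG : Good W J b ρ l B) {r R' s : ℝ} (hlr : l ≤ r) (hr : 1 ≤ r)
    (hρr : 2 * ρ ≤ r) (hB : 0 ≤ B) (hR : 20 * r ≤ R') (hs : 0 ≤ s)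
    {a : Tor L} (ha : ∀ x, tnorm (x - a) ≤ 2 * R' → x ∈ Λ) {f : Tor L → ℝ}
    (hl : ∀ x y, |f x - f y| ≤ s / R' * tnorm (x - y))
    {H : Alg (Tor L)} (hH : Loc {x | 2 * R' < tnorm (x - a)} H) (hN : NN H)
    {P Q : Tor L × Tor L} (hP : P ∈ PP r R' a) (hQ : Q ∈ PP r R' a) (c : Fin 3) :
    W.E (TT J f r P c * (TT J f r Q c * H)) ≤
      4 * ((1 / cst L r) ^ 2 * B * ((18 * s * r / (R' * cst L r)) ^ 2 * B * W.E H)) := by
  have m1 := TT_mom hG hlr hr hρr hB hR hs ha hl hH hN hP c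
  have m2 := TT_mom hG hlr hr hρr hB hR hs ha hl hH hN hQ c
  have m3 : W.E (TT J f r P c * (TT J f r Q c * H)) ≤
      W.E ((1 / 2 : ℝ) • (TT J f r P c ^ 2 * H) + (1 / 2 : ℝ) • (TT J f r Q c ^ 2 * H)) := by
    refine W.mono fun σ hσ => ?_
    have hh := hN σ hσ
    simp only [map_mul, map_pow, map_add, smul_eval]
    nlinarith [mul_nonneg (sq_nonneg (eval σ (TT J f r P c) - eval σ (TT J f r Q c))) hh]
  rw [map_add, map_smul, map_smul, smul_eq_mul, smul_eq_mul] at m3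
  linarith

theorem TT_ortho (hG : Good W J b ρ l B) {r R' : ℝ} (hr : 1 ≤ r)
    (hρr : 2 * ρ ≤ r) (hR : 20 * r ≤ R')
    {a : Tor L} (ha : ∀ x, tnorm (x - a) ≤ 2 * R' → x ∈ Λ) {f : Tor L → ℝ}
    {H : Alg (Tor L)} (hH : Loc {x | 2 * R' < tnorm (x - a)} H)
    {P Q : Tor L × Tor L} (hP : P ∈ PP r R' a)
    (h1 : 3 * r < tnorm (Q.1 - P.1)) (h2 : 3 * r < tnorm (Q.2 - P.1)) (c : Fin 3) :
    W.E (TT J f r P c * (TT J f r Q c * H)) = 0 := by
  obtain ⟨_, ⟨h4, h16⟩, hp, hq⟩ := Finset.mem_filter.1 hP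
  have hr0 : 0 < r := by linarith
  -- locality of the factors
  have hΛ : ∀ x, tnorm (x - P.1) ≤ r + ρ → x ∈ Λ := by
    intro x hx
    refine ha x ?_
    have h1 := tnorm_add_le (x - P.1) (P.1 - a)
    rw [sub_add_sub_cancel] at h1
    linarith
  have hH' : Loc {x | r + ρ < tnorm (x - P.1)} H := by
    refine hH.mono fun x hx => ?_
    have h1 := tnorm_add_le (x - P.1) (P.1 - a)
    rw [sub_add_sub_cancel] at h1
    have h2 : 2 * R' < tnorm (x - a) := hx
    show r + ρ < tnorm (x - P.1)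
    linarith
  have far : ∀ z : Tor L, 3 * r < tnorm (z - P.1) → ∀ (v : Tor L → ℝ),
      (∀ x, v x ≠ 0 → tnorm (x - z) ≤ r) → ∀ i, Loc {x | r + ρ < tnorm (x - P.1)} (JS J v i) := by
    intro z hz v hv i
    refine (sup_loc (JS_sup hG.sup hv i)).mono fun x hx => ?_
    have h1 : tnorm (x - z) ≤ r + ρ := hx
    have h2 := tnorm_add_le (z - x) (x - P.1)
    rw [sub_add_sub_cancel, tnorm_sub_comm z x] at h2
    show r + ρ < tnorm (x - P.1)
    linarith
  have hTQ : Loc {x | r + ρ < tnorm (x - P.1)} (TT J f r Q c) := by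
    unfold TT
    rw [sub_eq_add_neg, ← neg_one_smul ℝ]
    refine Loc.add (Loc.mul ?_ ?_) (Loc.smul (Loc.mul ?_ ?_) _)
    · exact far Q.1 h1 _ (fun x h => th_supp hr0 Q.1 x h) _
    · exact far Q.2 h2 _ (fun x h => fth_supp hr0 f Q.1 Q.2 x h) _
    · exact far Q.1 h1 _ (fun x h => fth_supp hr0 f Q.1 Q.1 x h) _
    · exact far Q.2 h2 _ (fun x h => th_supp hr0 Q.2 x h) _
  have h5 : 3 * r < tnorm (P.2 - P.1) := by
    rw [tnorm_sub_comm]
    linarith
  have e : TT J f r P c * (TT J f r Q c * H) =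
      JS J (th r P.1) (c + 1) * (JS J (fun x => (f x - f P.1) * th r P.2 x) (c + 2) *
        (TT J f r Q c * H)) -
      JS J (fun x => (f x - f P.1) * th r P.1 x) (c + 1) * (JS J (th r P.2) (c + 2) *
        (TT J f r Q c * H)) := by
    conv_lhs => rw [TT]
    ring
  rw [e, map_sub, ortho hG (fun x h => th_supp hr0 P.1 x h) hΛ
    ((far P.2 h5 _ (fun x h => fth_supp hr0 f P.1 P.2 x h) _).mul (hTQ.mul hH')),
    ortho hG (fun x h => fth_supp hr0 f P.1 P.1 x h) hΛ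
    ((far P.2 h5 _ (fun x h => th_supp hr0 P.2 x h) _).mul (hTQ.mul hH')), sub_zero]

end good2

/-- the pairs `Q` with a point near `p` -/
def NP (r R' : ℝ) (a p : Tor L) : Finset (Tor L × Tor L) :=
  (PP r R' a).filter fun Q => tnorm (Q.1 - p) ≤ 3 * r ∨ tnorm (Q.2 - p) ≤ 3 * r

/-- the ball as a finite set -/
def bl (p : Tor L) (R : ℝ) : Finset (Tor L) := Finset.univ.filter fun z => tnorm (z - p) ≤ R

theorem mem_bl {p z : Tor L} {R : ℝ} : z ∈ bl p R ↔ tnorm (z - p) ≤ R := by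
  unfold bl
  rw [Finset.mem_filter]
  exact ⟨fun h => h.2, fun h => ⟨Finset.mem_univ _, h⟩⟩

theorem card_PP (r R' : ℝ) (a : Tor L) :
    (PP r R' a).card ≤ (bl a (R' + 17 * r)).card * (bl (0 : Tor L) (16 * r)).card := by
  rw [← Finset.card_product]
  apply Finset.card_le_card_of_injOn (fun P => (P.1, P.2 - P.1))
  · intro P hP
    obtain ⟨_, ⟨h4, h16⟩, hp, hq⟩ := Finset.mem_filter.1 (Finset.mem_coe.1 hP)
    refine Finset.mem_coe.2 (Finset.mem_product.2 ⟨mem_bl.2 hp, mem_bl.2 ?_⟩)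
    rw [sub_zero, tnorm_sub_comm]
    exact h16
  · rintro ⟨p, q⟩ _ ⟨p', q'⟩ _ h
    simp only [Prod.mk.injEq] at h ⊢
    obtain ⟨h1, h2⟩ := h
    subst h1
    exact ⟨rfl, sub_left_injective h2⟩

theorem card_NP (r R' : ℝ) (a p : Tor L) :
    (NP r R' a p).card ≤ 2 * ((bl p (3 * r)).card * (bl (0 : Tor L) (16 * r)).card) := by
  have h0 : NP r R' a p = (PP r R' a).filter (fun Q => tnorm (Q.1 - p) ≤ 3 * r) ∪
      (PP r R' a).filter (fun Q => tnorm (Q.2 - p) ≤ 3 * r) := by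
    unfold NP
    rw [Finset.filter_or]
  rw [h0, two_mul]
  refine (Finset.card_union_le _ _).trans (add_le_add ?_ ?_)
  · rw [← Finset.card_product]
    apply Finset.card_le_card_of_injOn (fun P => (P.1, P.2 - P.1))
    · intro P hP
      obtain ⟨h1, h2⟩ := Finset.mem_filter.1 (Finset.mem_coe.1 hP)
      obtain ⟨_, ⟨h4, h16⟩, hp, hq⟩ := Finset.mem_filter.1 h1
      refine Finset.mem_coe.2 (Finset.mem_product.2 ⟨mem_bl.2 h2, mem_bl.2 ?_⟩)
      rw [sub_zero, tnorm_sub_comm]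
      exact h16
    · rintro ⟨p, q⟩ _ ⟨p', q'⟩ _ h
      simp only [Prod.mk.injEq] at h ⊢
      obtain ⟨h1, h2⟩ := h
      subst h1
      exact ⟨rfl, sub_left_injective h2⟩
  · rw [← Finset.card_product]
    apply Finset.card_le_card_of_injOn (fun P => (P.2, P.1 - P.2))
    · intro P hP
      obtain ⟨h1, h2⟩ := Finset.mem_filter.1 (Finset.mem_coe.1 hP)
      obtain ⟨_, ⟨h4, h16⟩, hp, hq⟩ := Finset.mem_filter.1 h1
      refine Finset.mem_coe.2 (Finset.mem_product.2 ⟨mem_bl.2 h2, mem_bl.2 ?_⟩)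
      rw [sub_zero]
      exact h16
    · rintro ⟨p, q⟩ _ ⟨p', q'⟩ _ h
      simp only [Prod.mk.injEq] at h ⊢
      obtain ⟨h1, h2⟩ := h
      subst h1
      exact ⟨sub_left_injective h2, rfl⟩

end torus

theorem diff : S_diff := by
  obtain ⟨K, hK, hcard⟩ := card_ball_le
  obtain ⟨k0, hk0, hcst⟩ := cst_ge
  refine ⟨3 * (1156 * 9248 * 1296 * K ^ 4 / k0 ^ 4), by positivity, ?_⟩
  intro L _ ι _ G β Λ W J b ρ l B r hG hρ hρr hlr hr hB hrL R' s hR hs a ha f hf hl H hH hN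
  have hr0 : 0 < r := by linarith
  have hR0 : 0 < R' := by linarith
  have hκ := cst_pos (L := L) r hr0
  have hEH : 0 ≤ W.E H := W.pos H hN
  set M : ℝ := 4 * ((1 / cst L r) ^ 2 * B * ((18 * s * r / (R' * cst L r)) ^ 2 * B * W.E H))
    with hM
  have hM0 : 0 ≤ M := by positivity
  -- cardinalities
  have c1 : ((bl a (R' + 17 * r)).card : ℝ) ≤ 4 * K * R' ^ 2 := by
    refine (hcard L a (R' + 17 * r) (by positivity)).trans ?_
    have : (1 + (R' + 17 * r)) ^ 2 ≤ (2 * R') ^ 2 := pow_le_pow_left₀ (by positivity) (by linarith) 2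
    calc K * (1 + (R' + 17 * r)) ^ 2 ≤ K * (2 * R') ^ 2 := by gcongr
      _ = 4 * K * R' ^ 2 := by ring
  have c2 : ((bl (0 : Tor L) (16 * r)).card : ℝ) ≤ 289 * K * r ^ 2 := by
    refine (hcard L 0 (16 * r) (by positivity)).trans ?_
    have : (1 + 16 * r) ^ 2 ≤ (17 * r) ^ 2 := pow_le_pow_left₀ (by positivity) (by linarith) 2
    calc K * (1 + 16 * r) ^ 2 ≤ K * (17 * r) ^ 2 := by gcongr
      _ = 289 * K * r ^ 2 := by ring
  have c3 : ∀ p : Tor L, ((bl p (3 * r)).card : ℝ) ≤ 16 * K * r ^ 2 := by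
    intro p
    refine (hcard L p (3 * r) (by positivity)).trans ?_
    have : (1 + 3 * r) ^ 2 ≤ (4 * r) ^ 2 := pow_le_pow_left₀ (by positivity) (by linarith) 2
    calc K * (1 + 3 * r) ^ 2 ≤ K * (4 * r) ^ 2 := by gcongr
      _ = 16 * K * r ^ 2 := by ring
  have d1 : ((PP r R' a).card : ℝ) ≤ 1156 * K ^ 2 * R' ^ 2 * r ^ 2 := by
    have h1 : ((PP r R' a).card : ℝ) ≤
        ((bl a (R' + 17 * r)).card : ℝ) * ((bl (0 : Tor L) (16 * r)).card : ℝ) := by
      exact_mod_cast card_PP r R' a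
    calc ((PP r R' a).card : ℝ) ≤ _ := h1
      _ ≤ (4 * K * R' ^ 2) * (289 * K * r ^ 2) := by gcongr
      _ = _ := by ring
  have d2 : ∀ p : Tor L, ((NP r R' a p).card : ℝ) ≤ 9248 * K ^ 2 * r ^ 4 := by
    intro p
    have h1 : ((NP r R' a p).card : ℝ) ≤
        2 * (((bl p (3 * r)).card : ℝ) * ((bl (0 : Tor L) (16 * r)).card : ℝ)) := by
      exact_mod_cast card_NP r R' a p
    have h3 := c3 p
    calc ((NP r R' a p).card : ℝ) ≤ _ := h1
      _ ≤ 2 * ((16 * K * r ^ 2) * (289 * K * r ^ 2)) := by gcongr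
      _ = _ := by ring
  -- the moment bound
  have hMle : M ≤ 1296 * s ^ 2 * B ^ 2 * W.E H / (k0 ^ 4 * R' ^ 2 * r ^ 6) := by
    have e : M = 1296 * s ^ 2 * r ^ 2 * B ^ 2 * W.E H / (R' ^ 2 * cst L r ^ 4) := by
      rw [hM]
      field_simp
      ring
    rw [e, div_le_div_iff₀ (by positivity) (by positivity)]
    have h1 : (k0 * r ^ 2) ^ 4 ≤ cst L r ^ 4 :=
      pow_le_pow_left₀ (by positivity) (hcst L r hr hrL) 4
    calc 1296 * s ^ 2 * r ^ 2 * B ^ 2 * W.E H * (k0 ^ 4 * R' ^ 2 * r ^ 6)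
        = 1296 * s ^ 2 * B ^ 2 * W.E H * (R' ^ 2 * (k0 * r ^ 2) ^ 4) := by ring
      _ ≤ 1296 * s ^ 2 * B ^ 2 * W.E H * (R' ^ 2 * cst L r ^ 4) := by gcongr
  -- one component
  have key : ∀ c : Fin 3, W.E ((QQ J (kap f (psi 16 r)) c - QQ J (kap f (psi 4 r)) c) ^ 2 * H) ≤
      s ^ 2 * (1156 * 9248 * 1296 * K ^ 4 / k0 ^ 4 * B ^ 2) * W.E H := by
    intro c
    rw [diff_eq J f hr0 a hf c]
    have e1 : (∑ P ∈ PP r R' a, TT J f r P c) ^ 2 * H =
        ∑ P ∈ PP r R' a, ∑ Q ∈ PP r R' a, TT J f r P c * (TT J f r Q c * H) := by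
      rw [pow_two, Finset.sum_mul_sum, Finset.sum_mul]
      refine Finset.sum_congr rfl fun P _ => ?_
      rw [Finset.sum_mul]
      refine Finset.sum_congr rfl fun Q _ => ?_
      ring
    rw [e1, map_sum]
    have e2 : ∀ P ∈ PP r R' a, W.E (∑ Q ∈ PP r R' a, TT J f r P c * (TT J f r Q c * H)) ≤
        (9248 * K ^ 2 * r ^ 4) * M := by
      intro P hP
      rw [map_sum]
      have e3 : ∑ Q ∈ PP r R' a, W.E (TT J f r P c * (TT J f r Q c * H)) =
          ∑ Q ∈ NP r R' a P.1, W.E (TT J f r P c * (TT J f r Q c * H)) := by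
        unfold NP
        rw [Finset.sum_filter]
        refine Finset.sum_congr rfl fun Q hQ => ?_
        split_ifs with h
        · rfl
        · rw [not_or, not_le, not_le] at h
          exact TT_ortho hG hr hρr hR ha hH hP h.1 h.2 c
      rw [e3]
      refine (Finset.sum_le_card_nsmul _ _ M fun Q hQ => ?_).trans ?_
      · exact TT_cross hG hlr hr hρr hB hR hs ha hl hH hN hP (Finset.mem_filter.1 hQ).1 c
      · rw [nsmul_eq_mul]
        exact mul_le_mul_of_nonneg_right (d2 P.1) hM0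
    refine (Finset.sum_le_card_nsmul _ _ _ e2).trans ?_
    rw [nsmul_eq_mul]
    calc ((PP r R' a).card : ℝ) * (9248 * K ^ 2 * r ^ 4 * M)
        ≤ (1156 * K ^ 2 * R' ^ 2 * r ^ 2) * (9248 * K ^ 2 * r ^ 4 *
          (1296 * s ^ 2 * B ^ 2 * W.E H / (k0 ^ 4 * R' ^ 2 * r ^ 6))) := by gcongr
      _ = s ^ 2 * (1156 * 9248 * 1296 * K ^ 4 / k0 ^ 4 * B ^ 2) * W.E H := by
        field_simp
  calc ∑ c, W.E ((QQ J (kap f (psi 16 r)) c - QQ J (kap f (psi 4 r)) c) ^ 2 * H)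
      ≤ ∑ _c : Fin 3, s ^ 2 * (1156 * 9248 * 1296 * K ^ 4 / k0 ^ 4 * B ^ 2) * W.E H :=
        Finset.sum_le_sum fun c _ => key c
    _ = s ^ 2 * (3 * (1156 * 9248 * 1296 * K ^ 4 / k0 ^ 4) * B ^ 2) * W.E H := by
        rw [Finset.sum_const, Finset.card_univ, Fintype.card_fin, nsmul_eq_mul]
        push_cast
        ring

end Pool.Agent.H860.RG
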